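import Pool.Agent.helper96.S5.SpecL

set_option autoImplicit false

namespace S5

open PF

noncomputable section

/-- the renaming under one quantifier -/
def PRN_up (σ : ℕ → ℕ) : ℕ → ℕ
  | 0 => 0
  | i + 1 => σ i + 1

theorem PRN_cns {L : Type} (x : L) (e : ℕ → L) (σ : ℕ → ℕ) :
    (fun i => cns x e (PRN_up σ i)) = cns x (fun i => e (σ i)) := by
  funext i
  cases i with
  | zero => rfl
  | succ i => rfl

def PRN_tm (τ : ℕ → ℕ) : Tm → Tm
  | .var i => .var (τ i)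
  | .bot => .bot
  | .top => .top
  | .sup a b => .sup (PRN_tm τ a) (PRN_tm τ b)
  | .inf a b => .inf (PRN_tm τ a) (PRN_tm τ b)

theorem PRN_tm_ev {L : Type} [Lattice L] [BoundedOrder L] (τ : ℕ → ℕ) (e : ℕ → L) (t : Tm) :
    (PRN_tm τ t).ev e = t.ev (fun i => e (τ i)) := by
  induction t with
  | var i => rfl
  | bot => rfl
  | top => rfl
  | sup a b ha hb =>
    show (PRN_tm τ a).ev e ⊔ (PRN_tm τ b).ev e = a.ev _ ⊔ b.ev _
    rw [ha, hb]
  | inf a b ha hb =>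
    show (PRN_tm τ a).ev e ⊓ (PRN_tm τ b).ev e = a.ev _ ⊓ b.ev _
    rw [ha, hb]

def PRN_fm (τ : ℕ → ℕ) : Fm → Fm
  | .eq a b => .eq (PRN_tm τ a) (PRN_tm τ b)
  | .neg a => .neg (PRN_fm τ a)
  | .and a b => .and (PRN_fm τ a) (PRN_fm τ b)
  | .or a b => .or (PRN_fm τ a) (PRN_fm τ b)

theorem PRN_fm_ev {L : Type} [Lattice L] [BoundedOrder L] (τ : ℕ → ℕ) (e : ℕ → L) (t : Fm) :
    (PRN_fm τ t).Holds e ↔ t.Holds (fun i => e (τ i)) := by
  induction t with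
  | eq a b =>
    show (PRN_tm τ a).ev e = (PRN_tm τ b).ev e ↔ a.ev _ = b.ev _
    rw [PRN_tm_ev, PRN_tm_ev]
  | neg a ha =>
    show ¬ (PRN_fm τ a).Holds e ↔ ¬ a.Holds _
    rw [ha]
  | and a b ha hb =>
    show (PRN_fm τ a).Holds e ∧ (PRN_fm τ b).Holds e ↔ a.Holds _ ∧ b.Holds _
    rw [ha, hb]
  | or a b ha hb =>
    show (PRN_fm τ a).Holds e ∨ (PRN_fm τ b).Holds e ↔ a.Holds _ ∨ b.Holds _
    rw [ha, hb]

def PRN_xm (τ : ℕ → ℕ) : XM → XM
  | .fm φ => .fm (PRN_fm τ φ)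
  | .rl r i1 i2 i3 i4 => .rl r (τ i1) (τ i2) (τ i3) (τ i4)
  | .neg a => .neg (PRN_xm τ a)
  | .and a b => .and (PRN_xm τ a) (PRN_xm τ b)
  | .or a b => .or (PRN_xm τ a) (PRN_xm τ b)

theorem PRN_xm_ev {L : Type} [Lattice L] [BoundedOrder L] (δ : ℕ → L → L → L → L → Prop) (τ : ℕ → ℕ)
    (e : ℕ → L) (t : XM) : (PRN_xm τ t).ev δ e ↔ t.ev δ (fun i => e (τ i)) := by
  induction t with
  | fm φ => exact PRN_fm_ev τ e φ
  | rl r i1 i2 i3 i4 => exact Iff.rfl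
  | neg a ha =>
    show ¬ (PRN_xm τ a).ev δ e ↔ ¬ a.ev δ _
    rw [ha]
  | and a b ha hb =>
    show (PRN_xm τ a).ev δ e ∧ (PRN_xm τ b).ev δ e ↔ a.ev δ _ ∧ b.ev δ _
    rw [ha, hb]
  | or a b ha hb =>
    show (PRN_xm τ a).ev δ e ∨ (PRN_xm τ b).ev δ e ↔ a.ev δ _ ∨ b.ev δ _
    rw [ha, hb]

theorem PRN_St {L : Type} (q : List Bool) : ∀ (σ : ℕ → ℕ), ∃ τ : ℕ → ℕ, ∀ (m : (ℕ → L) → Prop) (e : ℕ → L),
    St L q m (fun i => e (σ i)) ↔ St L q (fun f => m (fun i => f (τ i))) e := by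
  induction q with
  | nil =>
    intro σ
    exact ⟨σ, fun m e => Iff.rfl⟩
  | cons b q ih =>
    intro σ
    obtain ⟨τ, hτ⟩ := ih (PRN_up σ)
    refine ⟨τ, fun m e => ?_⟩
    cases b with
    | true =>
      show (∀ x, St L q m (cns x (fun i => e (σ i)))) ↔ ∀ x, St L q (fun f => m (fun i => f (τ i))) (cns x e)
      refine forall_congr' fun x => ?_
      rw [← PRN_cns]
      exact hτ m (cns x e)
    | false =>
      show (∃ x, St L q m (cns x (fun i => e (σ i)))) ↔ ∃ x, St L q (fun f => m (fun i => f (τ i))) (cns x e)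
      refine exists_congr fun x => ?_
      rw [← PRN_cns]
      exact hτ m (cns x e)

theorem PRN_row : PRN_stmt := by
  intro L _ _ n b P σ h
  obtain ⟨q, μ, hq, hP⟩ := h
  obtain ⟨τ, hτ⟩ := PRN_St (L := L) q σ
  refine ⟨q, PRN_xm τ μ, hq, fun δ e => ?_⟩
  have h1 := hP δ (fun i => e (σ i))
  have h2 := hτ (fun f => XM.ev δ f μ) e
  have h3 : (fun f : ℕ → L => XM.ev δ f (PRN_xm τ μ)) = fun f => XM.ev δ (fun i => f (τ i)) μ := by
    funext f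
    exact propext (PRN_xm_ev δ τ f μ)
  rw [h3]
  exact h1.trans h2

end

end S5
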